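import Pool.Agent.H29.STP.Final
import Pool.Agent.H29.STP.Meas
import Pool.Agent.H29.STP.Exist

/-!
# Square crossings in critical space-time percolation

The definitions are in `Pool/Agent/H29/STP/Model.lean`:

* `IsPoisson P Ξ`: the random sets `Ξ i` are independent Poisson processes of rate `1` on `ℝ`
  (such processes exist, see `Pool.Agent.H29.STP.exists_isPoisson`);
* `CEvent Ξ n`: the event `C_n(0)`, where `Ξ (false, z)` is the set of the cuts on the line `z` and
  `Ξ (true, z)` the set of the bridges between the lines `z` and `z + 1`.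
-/

set_option autoImplicit false

open MeasureTheory ProbabilityTheory Filter

namespace Pool.Agent.Results.MP_f2097b_pr.SquareCrossings

open Pool.Agent.H29.STP

universe u

/-- In critical space-time percolation the probability of `C_n(0)` stays above `1 / 2 + c` for all
large `n`, with an absolute constant `c > 0`; in particular it does not tend to `1 / 2`. -/
theorem result :
    (∃ c : ℝ, 0 < c ∧ ∃ n₀ : ℕ, ∀ n ≥ n₀,
      ∀ (Ω : Type u) [MeasurableSpace Ω] (P : Measure Ω) [IsProbabilityMeasure P]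
        (Ξ : Bool × ℤ → Ω → Set ℝ), IsPoisson P Ξ →
        NullMeasurableSet (CEvent Ξ n) P ∧ 1 / 2 + c ≤ P.real (CEvent Ξ n)) ∧
    (∀ (Ω : Type u) [MeasurableSpace Ω] (P : Measure Ω) [IsProbabilityMeasure P]
      (Ξ : Bool × ℤ → Ω → Set ℝ), IsPoisson P Ξ →
        ¬ Tendsto (fun n => P.real (CEvent Ξ n)) atTop (nhds (1 / 2))) := by
  refine ⟨?_, fun Ω _ P _ Ξ hΞ => not_tendsto hΞ⟩
  obtain ⟨c, hc, n₀, h⟩ := main_bound.{u}
  refine ⟨c, hc, n₀, fun n hn Ω _ P _ Ξ hΞ => ⟨nullMeasurableSet_CEvent hΞ n, ?_⟩⟩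
  obtain ⟨A, _, hAC, hAP⟩ := h n hn hΞ
  exact hAP.trans (measureReal_mono hAC)

end Pool.Agent.Results.MP_f2097b_pr.SquareCrossings
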